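import Pool.Agent.H83.AG.Large
import Pool.Agent.H26.AN.Const

/-!
Sets of large dimension, uniformly in the angle (after `Pool.Agent.H83.AG.Large`, helper83).
-/

set_option autoImplicit false
set_option linter.unusedSectionVars false

open MeasureTheory Metric Set Filter Topology
open scoped ENNReal NNReal RealInnerProductSpace

namespace Pool.Agent.H26.AN

open Pool.Agent.W778.AG Pool.Agent.H83.AG

/-- large dimension, uniformly in the angle -/
theorem largeU (S c : ℝ) (hS : 0 < S) (hS1 : S ≤ 1) (hc : 0 < c) :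
    ∃ κ : ℝ, 0 < κ ∧ κ < 1 ∧ ∃ n₀ : ℕ, ∀ α : ℝ, 0 < α → α < Real.pi →
      S ≤ Real.sin α ^ 2 → c ≤ Real.cos α ^ 2 → ∀ n : ℕ, n₀ ≤ n → ∀ K : Set (En n), IsCompact K →
      ENNReal.ofReal ((1 - κ) * n) < dimH K → HasAngle K α := by
  obtain ⟨κ, R, β, hκ0, hκ1, hR0, hR1, hβ0, hβ1, n₀, hn₀⟩ := constU S c hS hS1 hc
  refine ⟨κ, hκ0, hκ1, n₀, fun α hα0 hα1 hSα hcα n hn K hK hdim => ?_⟩
  have hcos : Real.cos α ≠ 0 := by
    intro h
    rw [h] at hcα
    norm_num at hcα
    linarith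
  obtain ⟨hn3, hcon, hI1, q, hq, hI2, hLE⟩ := hn₀ α hSα hcα n hn
  have hnpos : (0 : ℝ) < n := by
    have : 0 < n := by omega
    exact_mod_cast this
  obtain ⟨C, ν, hC, hν, hνK, hball⟩ := frostman K hK ((1 - κ) * n)
    (mul_pos (by linarith) hnpos) hdim
  set η := LE n (fun φ => wf α φ ^ q * Gam n κ R β (Real.sqrt (wf α φ))) with hη
  set η' := LE n (fun φ => Gam n κ R β (wf α φ)) + 1 with hη'
  set X := 4 * (1 + R) ^ n with hX
  have hX0 : 0 < X := by positivity
  have hsin : ∀ φ ∈ Icc 0 Real.pi, 0 ≤ Real.sin φ ^ (n - 3) := fun φ hφ =>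
    pow_nonneg (Real.sin_nonneg_of_nonneg_of_le_pi hφ.1 hφ.2) _
  have hη0 : 0 ≤ η := by
    refine div_nonneg ?_ (sinI_pos _).le
    apply intervalIntegral.integral_nonneg Real.pi_pos.le
    intro φ hφ
    refine mul_nonneg (mul_nonneg (pow_nonneg (Pool.Agent.W646.AG.wf_nonneg α φ) q) ?_)
      (hsin φ hφ)
    exact gam_nonneg hR0 hβ0 (Real.sqrt_le_one.2 (Pool.Agent.W646.AG.wf_le_one α φ))
  have hη'0 : 0 < η' := by
    have : 0 ≤ LE n (fun φ => Gam n κ R β (wf α φ)) := by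
      refine div_nonneg ?_ (sinI_pos _).le
      apply intervalIntegral.integral_nonneg Real.pi_pos.le
      intro φ hφ
      exact mul_nonneg (gam_nonneg hR0 hβ0 (Pool.Agent.W646.AG.wf_le_one α φ)) (hsin φ hφ)
    linarith
  obtain ⟨J, hJ⟩ := exists_nat_gt (2 * η' * X + 6)
  have hJ0 : (0 : ℝ) < J := by
    have : 0 < 2 * η' * X := by positivity
    linarith
  set τ := (η' + J * η) / 2 with hτ
  have hτ0 : 0 < τ := by positivity
  obtain ⟨y, ω, a, D, hyK, hysupp, hW, hsum⟩ := chain n q α κ R β τ C 1 ν K hn3 hκ0 hκ1 hR0 hR1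
    hβ0 hβ1 hτ0 hC one_pos hcon hν hK hνK hball J
  let f : En n → En n := fun x => dir (x - y)
  have hf : Measurable f := Pool.Agent.W646.AG.measurable_dir.comp (measurable_id.sub_const y)
  have hfar : ∀ i, ∀ᵐ x ∂(ω i), x ∈ K ∩ {x | a i ≤ dist x y} := by
    intro i
    have h1 : ∀ᵐ x ∂(ω i), x ∈ K := by
      have h2 : ∀ᵐ x ∂ν, x ∈ K := by rw [ae_iff]; exact hνK
      exact (hW i).2.1.ae_le h2
    filter_upwards [h1, ball_ae (hW i).2.2.2.1] with x h1 h2 using ⟨h1, h2⟩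
  have hne : ∀ i, ∀ x ∈ K ∩ {x | a i ≤ dist x y}, x ≠ y := by
    rintro i x ⟨_, hx⟩ rfl
    have ha := (hW i).2.2.1
    have : a i ≤ dist x x := hx
    rw [dist_self] at this
    linarith
  let F : Fin J → Set (En n) := fun i => f '' (K ∩ {x | a i ≤ dist x y})
  have hFc : ∀ i, IsCompact (F i) := by
    intro i
    apply IsCompact.image_of_continuousOn
    · apply hK.inter_right
      exact isClosed_le continuous_const (by fun_prop)
    · have : ContinuousOn (fun x : En n => ‖x - y‖⁻¹ • (x - y))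
          (K ∩ {x | a i ≤ dist x y}) := by
        refine ContinuousOn.fun_smul (ContinuousOn.inv₀ (by fun_prop) ?_) (by fun_prop)
        intro x hx
        exact norm_ne_zero_iff.2 (sub_ne_zero.2 (hne i x hx))
      exact this
  have hFs : ∀ i, F i ⊆ sphere (0 : En n) 1 := by
    rintro i _ ⟨x, hx, rfl⟩
    rw [mem_sphere_zero_iff_norm]
    exact Pool.Agent.W646.AG.norm_dir (sub_ne_zero.2 (hne i x hx))
  have hFμ : ∀ i, (ω i).map f (F i)ᶜ = 0 := by
    intro i
    rw [Measure.map_apply hf (hFc i).isClosed.isOpen_compl.measurableSet]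
    have : ∀ᵐ x ∂(ω i), f x ∈ F i := by
      filter_upwards [hfar i] with x hx
      exact mem_image_of_mem _ hx
    rw [ae_iff] at this
    exact this
  have hSph : ∀ i, Sph ((ω i).map f) := by
    intro i
    have := (hW i).1
    refine ⟨Measure.isProbabilityMeasure_map hf.aemeasurable, ?_⟩
    exact measure_mono_null (compl_subset_compl.2 (hFs i)) (hFμ i)
  have hpk : ∀ i, ∀ r ∈ Ioo (0 : ℝ) 1, ∀ v : En n, ‖v‖ = 1 →
      ∫ u, pk n r ⟪v, u⟫ ∂((ω i).map f) ≤ D i * Gam n κ R β r := by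
    intro i r hr v hv
    have h1 := (hW i).2.2.2.2.2 y (by rw [dist_self]; linarith [(hW i).2.2.1]) r hr v hv
    rw [integral_map hf.aemeasurable]
    · exact h1
    · apply Measurable.aestronglyMeasurable
      exact (Pool.Agent.W646.AG.measurable_pk n r).comp (by fun_prop)
  have hpos : ∀ k < 2 * q, Even k → 0 ≤ Pg n k (Real.cos α) := by
    intro k hk hev
    have hkq : (k : ℝ) ≤ ((n : ℝ) - 2) * Real.cos α ^ 2 / 4 := by
      have : (k : ℝ) ≤ 2 * q := by exact_mod_cast hk.le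
      linarith
    rcases lt_or_gt_of_ne hcos with h | h
    · have h2 := pos n k hn3 (-Real.cos α) (by linarith) (by linarith [Real.neg_one_le_cos α])
        (by rw [neg_sq]; exact hkq)
      rw [par n k, hev.neg_one_pow, one_mul] at h2
      exact h2.le
    · exact (pos n k hn3 (Real.cos α) h (Real.cos_le_one α) hkq).le
  have hmain : (η' + J * η) / 2 * ∑ i, D i - ∑ i, ∑ j ∈ Finset.univ.filter (fun j => i < j),
      Of n q α ((ω i).map f) ((ω j).map f) < (J : ℝ) * (J - 1) / 2 := by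
    refine lt_of_le_of_lt hsum ?_
    have h1 : τ * X ≤ η' * X / 2 + J / 4 := by
      have h2 : (J : ℝ) * (η * X) ≤ J * (1 / 2) := mul_le_mul_of_nonneg_left hLE hJ0.le
      have h3 : τ * X = η' * X / 2 + J * (η * X) / 2 := by rw [hτ]; ring
      linarith
    have h4 : τ * X + 1 < ((J : ℝ) - 1) / 2 := by linarith
    have h5 := mul_lt_mul_of_pos_left h4 hJ0
    linarith
  obtain ⟨i, j, hij, u, hu, v, hv, huv⟩ := sA n q J α (Gam n κ R β) η' η
    (fun i => (ω i).map f) D F hn3 hα0 hα1 hcos hpos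
    (fun r hr => gam_nonneg hR0 hβ0 hr.2.le) hI1 hI2 (by linarith) le_rfl hSph
    (fun i => (hW i).2.2.2.2.1) hpk hFc hFs hFμ hmain
  obtain ⟨x, hx, rfl⟩ := hu
  obtain ⟨z, hz, rfl⟩ := hv
  exact hasAngle_of hα0 hα1 hx.1 hyK hz.1 (hne i x hx) (hne j z hz) huv

end Pool.Agent.H26.AN
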